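import Pool.Agent.Helper6.H.Defs

/-! Packet H-C (switching with extendable points). -/

namespace Pool.Agent.Helper88.H

open Finset Equiv Pool.Agent.Helper90.W2 Pool.Agent.Helper6.H

variable {n k : ℕ}

/-- The chain condition. -/
def GC (r : ℕ → Fin k × Bool) (L : ℕ) (x : Fin k → Perm (Fin n)) :
    (j : ℕ) → (Fin j → Fin n) → Prop
  | 0, _ => True
  | j + 1, ps => GC r L x j (Fin.tail ps) ∧ Ext r L x (Fin.tail ps) (ps 0)

lemma edge_congr (r : ℕ → Fin k × Bool) (x x' : Fin k → Perm (Fin n)) (p : Fin n) (L : ℕ)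
    (h : ∀ t ≤ L, traj r x' p t = traj r x p t) (t : ℕ) (ht : t < L) :
    edge r x' p t = edge r x p t := by
  unfold edge
  rw [h t ht.le, h (t + 1) ht]

lemma Ext_congr (r : ℕ → Fin k × Bool) (L : ℕ) (x x' : Fin k → Perm (Fin n)) {j : ℕ}
    (ps : Fin j → Fin n) (p : Fin n)
    (h : ∀ i, ∀ t ≤ L, traj r x' (ps i) t = traj r x (ps i) t)
    (hp : ∀ t ≤ L, traj r x' p t = traj r x p t) (hE : Ext r L x ps p) : Ext r L x' ps p := by
  obtain ⟨h1, t₀, ht₀, h2, h3⟩ := hE
  refine ⟨by rw [hp L le_rfl, h1], t₀, ht₀, ?_, ?_⟩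
  · intro i t ht
    rw [edge_congr r x x' (ps i) L (h i) t ht, edge_congr r x x' p L hp t₀ ht₀]
    exact h2 i t ht
  · rcases h3 with ⟨h3, t, ht, h4⟩ | h3
    · left
      refine ⟨fun t ht => ?_, t, ht, ?_⟩
      · rw [edge_congr r x x' p L hp t (by omega), edge_congr r x x' p L hp t₀ ht₀]
        exact h3 t ht
      · rw [hp t (by omega), hp (t₀ + 1) (by omega)]
        exact h4
    · right
      intro t ht hne
      rw [edge_congr r x x' p L hp t ht, edge_congr r x x' p L hp t₀ ht₀]
      exact h3 t ht hne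

lemma GC_congr (r : ℕ → Fin k × Bool) (L : ℕ) (x x' : Fin k → Perm (Fin n)) :
    ∀ (j : ℕ) (ps : Fin j → Fin n),
    (∀ i, ∀ t ≤ L, traj r x' (ps i) t = traj r x (ps i) t) → GC r L x j ps → GC r L x' j ps := by
  intro j
  induction j with
  | zero => intro ps _ _; trivial
  | succ j ih =>
    intro ps h hG
    obtain ⟨h1, h2⟩ := hG
    refine ⟨ih (Fin.tail ps) (fun i t ht => h i.succ t ht) h1, ?_⟩
    exact Ext_congr r L x x' (Fin.tail ps) (ps 0) (fun i t ht => h i.succ t ht)
      (fun t ht => h 0 t ht) h2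

/-- A step whose edge is different from the edge `(s, y)` and which does not touch `v` is
unchanged. -/
lemma step_edge (r : ℕ → Fin k × Bool) (x : Fin k → Perm (Fin n)) (p q v : Fin n) (t₀ t : ℕ)
    (h1 : traj r x q t ≠ v) (h2 : traj r x q (t + 1) ≠ v)
    (he : edge r x q t ≠ edge r x p t₀) :
    act (M (r t₀) (traj r x p (t₀ + 1)) v x) (r t) (traj r x q t) = traj r x q (t + 1) := by
  change act (M (r t₀) (traj r x p (t₀ + 1)) v x) (r t) (traj r x q t) =
    act x (r t) (traj r x q t)
  apply step_eq (r t₀) (r t) (traj r x p (t₀ + 1)) v (traj r x p t₀) _ x rfl h1 h2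
  · intro hs hy
    apply he
    unfold edge
    have : traj r x q (t + 1) = traj r x p (t₀ + 1) := by
      change act x (r t) (traj r x q t) = act x (r t₀) (traj r x p t₀)
      rw [hs, hy]
    rw [this, hy, hs]
  · intro ha hb hy
    apply he
    have h3 : traj r x q t = traj r x p (t₀ + 1) := by
      change _ = act x (r t₀) (traj r x p t₀)
      rw [← hy, act_inv (r t₀) (r t) x ha hb]
      simp
    have h4 : traj r x q (t + 1) = traj r x p t₀ := hy
    unfold edge
    rw [h4, h3, ha, hb]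
    cases (r t₀).2 <;> rfl

/-- Backward trajectory. -/
def btraj (r : ℕ → Fin k × Bool) (L : ℕ) (x : Fin k → Perm (Fin n)) (p : Fin n) : ℕ → Fin n
  | 0 => p
  | j + 1 => (act x (r (L - 1 - j)))⁻¹ (btraj r L x p j)

/-- The landing point. -/
def land (r : ℕ → Fin k × Bool) (L : ℕ) (x' : Fin k → Perm (Fin n)) (p : Fin n) (t0 : ℕ) :
    Option (Fin L) → Fin n
  | some t => traj r x' p t
  | none => btraj r L x' p (L - 1 - t0)

/-- The decoding map. -/
def dec (r : ℕ → Fin k × Bool) (L : ℕ) {j : ℕ} (x' : Fin k → Perm (Fin n)) (ps : Fin j → Fin n)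
    (p : Fin n) (t0 : ℕ) (o : Option (Fin L)) :
    ((Fin k → Perm (Fin n)) × (Fin (j + 1) → Fin n)) × Fin n :=
  ((M (r t0) (land r L x' p t0 o) (act x' (r t0) (traj r x' p t0)) x', Fin.cons p ps),
    act x' (r t0) (traj r x' p t0))

lemma exists_dec (r : ℕ → Fin k × Bool) (L : ℕ)
    {j : ℕ} (x : Fin k → Perm (Fin n)) (p : Fin n) (ps : Fin j → Fin n) (v : Fin n)
    (hC : GC r L x j ps) (hE : Ext r L x ps p)
    (hv : v ∉ U r L x (Fin.cons p ps : Fin (j + 1) → Fin n)) :
    ∃ x' : Fin k → Perm (Fin n), GC r L x' j ps ∧ ∃ t0 < L, ∃ o : Option (Fin L),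
      dec r L x' ps p t0 o = ((x, Fin.cons p ps), v) := by
  obtain ⟨hp, t0, ht0, hE1, hE2⟩ := hE
  have hv' : ∀ i : Fin (j + 1), ∀ t ≤ L,
      traj r x ((Fin.cons p ps : Fin (j + 1) → Fin n) i) t ≠ v := by
    intro i t ht h
    exact hv ((mem_U _ _ _ _ _).2 ⟨i, t, ht, h⟩)
  have hvp : ∀ t ≤ L, traj r x p t ≠ v := by
    intro t ht
    simpa using hv' 0 t ht
  have hvq : ∀ i, ∀ t ≤ L, traj r x (ps i) t ≠ v := by
    intro i t ht
    simpa using hv' i.succ t ht
  have hA : ∀ i, ∀ t ≤ L,
      traj r (M (r t0) (traj r x p (t0 + 1)) v x) (ps i) t = traj r x (ps i) t := by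
    intro i t
    induction t with
    | zero => intro _; rfl
    | succ t ih =>
      intro ht
      have h1 := ih (by omega)
      change act _ (r t) (traj r _ (ps i) t) = _
      rw [h1]
      exact step_edge r x p (ps i) v t0 t (hvq i t (by omega)) (hvq i (t + 1) ht)
        (hE1 i t (by omega))
  have hE3 : ∀ t < t0, edge r x p t ≠ edge r x p t0 := by
    intro t ht
    rcases hE2 with ⟨h, _⟩ | h
    · exact h t ht
    · exact h t (by omega) (by omega)
  have hB : ∀ t ≤ t0, traj r (M (r t0) (traj r x p (t0 + 1)) v x) p t = traj r x p t := by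
    intro t
    induction t with
    | zero => intro _; rfl
    | succ t ih =>
      intro ht
      have h1 := ih (by omega)
      change act _ (r t) (traj r _ p t) = _
      rw [h1]
      exact step_edge r x p p v t0 t (hvp t (by omega)) (hvp (t + 1) (by omega))
        (hE3 t (by omega))
  have hvv : act (M (r t0) (traj r x p (t0 + 1)) v x) (r t0) (traj r x p t0) = v := by
    rw [act_M_same, Perm.mul_apply]
    change swap (traj r x p (t0 + 1)) v (traj r x p (t0 + 1)) = v
    rw [swap_apply_left]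
  have hzz : ∃ o : Option (Fin L),
      land r L (M (r t0) (traj r x p (t0 + 1)) v x) p t0 o = traj r x p (t0 + 1) := by
    rcases hE2 with ⟨_, t, ht, h⟩ | h
    · refine ⟨some ⟨t, by omega⟩, ?_⟩
      change traj r _ p t = _
      rw [hB t ht, h]
    · refine ⟨none, ?_⟩
      have hb : ∀ i ≤ L - 1 - t0,
          btraj r L (M (r t0) (traj r x p (t0 + 1)) v x) p i = traj r x p (L - i) := by
        intro i
        induction i with
        | zero => intro _; exact hp.symm
        | succ i ih =>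
          intro hi
          change (act _ (r (L - 1 - i)))⁻¹ (btraj r L _ p i) = _
          rw [ih (by omega), Perm.inv_eq_iff_eq]
          have h1 := step_edge r x p p v t0 (L - 1 - i) (hvp _ (by omega)) (hvp _ (by omega))
            (h _ (by omega) (by omega))
          have h2 : L - (i + 1) = L - 1 - i := by omega
          have h3 : L - i = L - 1 - i + 1 := by omega
          rw [h2, h3, h1]
      change btraj r L _ p (L - 1 - t0) = _
      rw [hb _ le_rfl]
      congr 1
      omega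
  obtain ⟨o, ho⟩ := hzz
  refine ⟨M (r t0) (traj r x p (t0 + 1)) v x, GC_congr r L x _ j ps hA hC, t0, ht0, o, ?_⟩
  unfold dec
  rw [ho, hB t0 le_rfl, hvv, M_M]

/-- pairs (permutations, chain). -/
noncomputable def T (n : ℕ) {k : ℕ} (r : ℕ → Fin k × Bool) (L j : ℕ) :
    Finset ((Fin k → Perm (Fin n)) × (Fin j → Fin n)) := by
  classical exact Finset.univ.filter fun a => GC r L a.1 j a.2

lemma mem_T (r : ℕ → Fin k × Bool) (L j : ℕ)
    (a : (Fin k → Perm (Fin n)) × (Fin j → Fin n)) : a ∈ T n r L j ↔ GC r L a.1 j a.2 := by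
  unfold T; simp

lemma T_step (r : ℕ → Fin k × Bool) (L : ℕ) (j : ℕ) :
    (T n r L (j + 1)).card * (n - (j + 1) * (L + 1)) ≤
      (T n r L j).card * (n * (L * (L + 1))) := by
  classical
  let D : Finset (Σ _ : (Fin k → Perm (Fin n)) × (Fin (j + 1) → Fin n), Fin n) :=
    (T n r L (j + 1)).sigma fun a => (U r L a.1 a.2)ᶜ
  let E : Finset (((Fin k → Perm (Fin n)) × (Fin j → Fin n)) ×
      (Fin n × (Fin L × Option (Fin L)))) := T n r L j ×ˢ Finset.univ
  have hD : (T n r L (j + 1)).card * (n - (j + 1) * (L + 1)) ≤ D.card := by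
    rw [Finset.card_sigma, ← smul_eq_mul]
    apply Finset.card_nsmul_le_sum
    intro a _
    rw [Finset.card_compl, Fintype.card_fin]
    have := card_U r L a.1 a.2
    omega
  have hE : E.card = (T n r L j).card * (n * (L * (L + 1))) := by
    simp [E, Finset.card_product, Fintype.card_option]
  rw [← hE]
  refine hD.trans ?_
  have hsub : D ⊆ E.image fun e =>
      let d := dec r L e.1.1 e.1.2 e.2.1 e.2.2.1 e.2.2.2
      (⟨d.1, d.2⟩ : Σ _ : (Fin k → Perm (Fin n)) × (Fin (j + 1) → Fin n), Fin n) := by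
    rintro ⟨⟨x, ps'⟩, v⟩ hd
    simp only [D, Finset.mem_sigma, mem_T, Finset.mem_compl] at hd
    obtain ⟨⟨hC, hE'⟩, hv⟩ := hd
    rw [← Fin.cons_self_tail ps'] at hv
    obtain ⟨x', hx', t0, ht0, o, he⟩ := exists_dec r L x (ps' 0) (Fin.tail ps') v hC hE' hv
    rw [Finset.mem_image]
    refine ⟨((x', Fin.tail ps'), (ps' 0, (⟨t0, ht0⟩, o))), ?_, ?_⟩
    · simp [E, mem_T, hx']
    · simp only [he, Fin.cons_self_tail]
  exact (Finset.card_le_card hsub).trans Finset.card_image_le

lemma T_zero (r : ℕ → Fin k × Bool) (L : ℕ) : (T n r L 0).card ≤ n.factorial ^ k := by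
  refine (Finset.card_le_univ _).trans ?_
  simp [Fintype.card_perm]

lemma T_bound (r : ℕ → Fin k × Bool) (L m f : ℕ) (hLm : L ≤ m)
    (hn : 0 < n) (hV : 2 * (f * (m + 1)) ≤ n) :
    ∀ j ≤ f, (T n r L j).card ≤ n.factorial ^ k * (2 * (m * (m + 1))) ^ j := by
  intro j
  induction j with
  | zero => intro _; simpa using T_zero r L
  | succ j ih =>
    intro hj
    have h1 := ih (by omega)
    have h2 := T_step (n := n) r L j
    have h3 : (j + 1) * (L + 1) ≤ f * (m + 1) := Nat.mul_le_mul hj (by omega)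
    have h4 : L * (L + 1) ≤ m * (m + 1) := Nat.mul_le_mul hLm (by omega)
    have h5 : n ≤ 2 * (n - (j + 1) * (L + 1)) := by omega
    have h6 : (T n r L (j + 1)).card * n ≤ (T n r L j).card * (2 * (m * (m + 1))) * n := by
      calc (T n r L (j + 1)).card * n ≤ (T n r L (j + 1)).card * (2 * (n - (j + 1) * (L + 1))) :=
            Nat.mul_le_mul_left _ h5
        _ = 2 * ((T n r L (j + 1)).card * (n - (j + 1) * (L + 1))) := by ring
        _ ≤ 2 * ((T n r L j).card * (n * (L * (L + 1)))) := Nat.mul_le_mul_left _ h2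
        _ ≤ 2 * ((T n r L j).card * (n * (m * (m + 1)))) := by gcongr
        _ = _ := by ring
    have h7 : (T n r L (j + 1)).card ≤ (T n r L j).card * (2 * (m * (m + 1))) :=
      Nat.le_of_mul_le_mul_right h6 hn
    calc _ ≤ (T n r L j).card * (2 * (m * (m + 1))) := h7
      _ ≤ (n.factorial ^ k * (2 * (m * (m + 1))) ^ j) * (2 * (m * (m + 1))) :=
          Nat.mul_le_mul_right _ h1
      _ = _ := by ring

/-- number of chains for one tuple of permutations. -/
noncomputable def cnt (r : ℕ → Fin k × Bool) (L j : ℕ) (x : Fin k → Perm (Fin n)) : ℕ := by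
  classical exact (Finset.univ.filter fun ps : Fin j → Fin n => GC r L x j ps).card

lemma T_card (r : ℕ → Fin k × Bool) (L j : ℕ) :
    (T n r L j).card = ∑ x : Fin k → Perm (Fin n), cnt r L j x := by
  classical
  unfold T cnt
  simp only [Finset.card_filter]
  rw [Fintype.sum_prod_type]

lemma cnt_step (r : ℕ → Fin k × Bool) (L j F : ℕ) (x : Fin k → Perm (Fin n))
    (hF : ∀ ps : Fin j → Fin n, ∃ S : Finset (Fin n), F ≤ 2 * S.card ∧
      ∀ p ∈ S, Ext r L x ps p) :
    cnt r L j x * F ≤ 2 * cnt r L (j + 1) x := by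
  classical
  choose S hS1 hS2 using hF
  unfold cnt
  let D : Finset (Σ _ : Fin j → Fin n, Fin n) :=
    (Finset.univ.filter fun ps : Fin j → Fin n => GC r L x j ps).sigma fun ps => S ps
  have hD : (Finset.univ.filter fun ps : Fin j → Fin n => GC r L x j ps).card * F ≤
      2 * D.card := by
    rw [Finset.card_sigma, ← smul_eq_mul, Finset.mul_sum]
    exact Finset.card_nsmul_le_sum _ (fun ps => 2 * (S ps).card) _ fun ps _ => hS1 ps
  refine hD.trans (Nat.mul_le_mul_left _ ?_)
  apply Finset.card_le_card_of_injOn (fun a => (Fin.cons a.2 a.1 : Fin (j + 1) → Fin n))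
  · rintro ⟨ps, p⟩ ha
    simp only [D, Finset.coe_sigma, Set.mem_sigma_iff, Finset.mem_coe, Finset.mem_filter,
      Finset.mem_univ, true_and] at ha
    simp only [Finset.coe_filter, Finset.mem_univ, true_and, Set.mem_ofPred_eq]
    refine ⟨?_, ?_⟩
    · simpa using ha.1
    · simpa using hS2 ps p ha.2
  · rintro ⟨ps, p⟩ _ ⟨ps', p'⟩ _ h
    simp only at h
    have h' := Fin.cons_injective2 h
    rw [h'.1, h'.2]

lemma cnt_bound (r : ℕ → Fin k × Bool) (L f F : ℕ) (x : Fin k → Perm (Fin n))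
    (hF : ∀ j < f, ∀ ps : Fin j → Fin n, ∃ S : Finset (Fin n), F ≤ 2 * S.card ∧
      ∀ p ∈ S, Ext r L x ps p) :
    ∀ j ≤ f, F ^ j ≤ 2 ^ j * cnt r L j x := by
  intro j
  induction j with
  | zero =>
    intro _
    have : cnt r L 0 x = 1 := by
      classical
      unfold cnt
      rw [Finset.filter_true_of_mem]
      · simp
      · intro ps _
        trivial
    simp [this]
  | succ j ih =>
    intro hj
    have h1 := ih (by omega)
    have h2 := cnt_step r L j F x (hF j (by omega))
    calc F ^ (j + 1) = F ^ j * F := pow_succ _ _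
      _ ≤ (2 ^ j * cnt r L j x) * F := Nat.mul_le_mul_right _ h1
      _ = 2 ^ j * (cnt r L j x * F) := by ring
      _ ≤ 2 ^ j * (2 * cnt r L (j + 1) x) := Nat.mul_le_mul_left _ h2
      _ = _ := by ring

theorem count_ext {n k : ℕ} (r : ℕ → Fin k × Bool) (L m f F : ℕ) (hL : 0 < L) (hLm : L ≤ m)
    (hV : 2 * (f * (m + 1)) ≤ n) (hF0 : 0 < F)
    (hr : ∀ t, t + 1 < L → r (t + 1) ≠ flip (r t))
    (hext : ∀ (x : Fin k → Perm (Fin n)),
      F ≤ (univ.filter fun i : Fin n => traj r x i L = i).card → ∀ j < f,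
      ∀ ps : Fin j → Fin n, ∃ S : Finset (Fin n), F ≤ 2 * S.card ∧ ∀ p ∈ S, Ext r L x ps p) :
    (Nat.card {x : Fin k → Perm (Fin n) //
      F ≤ (univ.filter fun i : Fin n => traj r x i L = i).card} : ℝ) ≤
      (n.factorial : ℝ) ^ k * (4 * m * (m + 1) / F) ^ f := by
  classical
  rw [Nat.card_eq_fintype_card, Fintype.card_subtype]
  rcases Nat.eq_zero_or_pos n with hn | hn
  · subst hn
    have : (Finset.univ.filter fun x : Fin k → Perm (Fin 0) =>
      F ≤ (Finset.univ.filter fun i : Fin 0 => traj r x i L = i).card) = ∅ := by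
      rw [Finset.filter_eq_empty_iff]
      intro x _ h
      simp at h
      omega
    rw [this]
    simp only [Finset.card_empty, Nat.cast_zero]
    positivity
  have hT := T_bound (n := n) r L m f hLm hn hV f le_rfl
  rw [T_card] at hT
  have h1 : (Finset.univ.filter fun x : Fin k → Perm (Fin n) =>
      F ≤ (Finset.univ.filter fun i : Fin n => traj r x i L = i).card).card * F ^ f ≤
      2 ^ f * ∑ x : Fin k → Perm (Fin n), cnt r L f x := by
    rw [← smul_eq_mul, Finset.mul_sum]
    refine (Finset.card_nsmul_le_sum _ (fun x => 2 ^ f * cnt r L f x) _ ?_).trans ?_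
    · intro x hx
      rw [Finset.mem_filter] at hx
      exact cnt_bound r L f F x (hext x hx.2) f le_rfl
    · exact Finset.sum_le_sum_of_subset (Finset.filter_subset _ _)
  have h2 : (Finset.univ.filter fun x : Fin k → Perm (Fin n) =>
      F ≤ (Finset.univ.filter fun i : Fin n => traj r x i L = i).card).card * F ^ f ≤
      n.factorial ^ k * (4 * m * (m + 1)) ^ f := by
    calc _ ≤ 2 ^ f * (n.factorial ^ k * (2 * (m * (m + 1))) ^ f) :=
          h1.trans (Nat.mul_le_mul_left _ hT)
      _ = n.factorial ^ k * (2 ^ f * (2 * (m * (m + 1))) ^ f) := by ring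
      _ = n.factorial ^ k * (4 * m * (m + 1)) ^ f := by
          rw [← mul_pow]; congr 2; ring
  have hFp : (0:ℝ) < (F:ℝ) ^ f := by positivity
  rw [div_pow, ← mul_div_assoc, le_div_iff₀ hFp]
  exact_mod_cast h2

end Pool.Agent.Helper88.H
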